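import Pool.Agent.Y355.PB.Core

/-!
# Local colourings for families with countably many exceptional pairs

`closingB` closes a countable subfamily off under reflection of traces and under the relation
`Bad` (one-point or infinite intersection). Finite members are handled by `localI`: inside the
reflecting family they are replaced by infinitely many infinite copies with private points, and at
the same time they are treated as members of the rest of the family.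
-/

namespace Pool.Agent.Y355.PB

open Set Pool.Agent.Results.MP_8bce8b_co.ErdosKomjath

variable {X : Type*}

/-- exceptional pairs: one common point or infinitely many common points -/
def Bad (A B : Set X) : Prop := One A B ∨ (A ∩ B).Infinite

lemma One.symm {A B : Set X} (h : One A B) : One B A := by
  obtain ⟨x, hx, hu⟩ := h
  exact ⟨x, ⟨hx.2, hx.1⟩, fun y hy => hu y ⟨hy.2, hy.1⟩⟩

lemma Bad.symm {A B : Set X} (h : Bad A B) : Bad B A := by
  rcases h with h | h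
  · exact Or.inl (One.symm h)
  · right
    rwa [Set.inter_comm] at h

lemma closingB {𝒜 : Set (Set X)} (hc : ∀ A ∈ 𝒜, A.Countable)
    (hb : ∀ A ∈ 𝒜, {B | B ∈ 𝒜 ∧ B ≠ A ∧ Bad A B}.Countable) {A₀ : Set X} (hA₀ : A₀ ∈ 𝒜) :
    ∃ M ⊆ 𝒜, M.Countable ∧ A₀ ∈ M ∧ (∀ A ∈ M, ∀ B ∈ 𝒜, B ≠ A → Bad A B → B ∈ M) ∧
      ∀ U ⊆ M, U.Finite → ∀ F ⊆ ⋃₀ M, F.Finite →
      ∀ N ⊆ ⋃₀ M, N.Finite → (∃ A ∈ 𝒜, A ∩ (F ∪ ⋃₀ U) = N) → ∃ D ∈ M, D ∩ (F ∪ ⋃₀ U) = N := by
  classical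
  let Φ : Set (Set X) × Set X × Set X → Set X := fun p =>
    if h : ∃ A ∈ 𝒜, A ∩ (p.2.1 ∪ ⋃₀ p.1) = p.2.2 then h.choose else A₀
  have hΦ : ∀ p, Φ p ∈ 𝒜 := by
    intro p
    simp only [Φ]
    split_ifs with h
    · exact h.choose_spec.1
    · exact hA₀
  let nb : Set X → Set (Set X) := fun A => {B | B ∈ 𝒜 ∧ B ≠ A ∧ Bad A B}
  let nx : Set (Set X) → Set (Set X) := fun M => (M ∪
    Φ '' ({U | U.Finite ∧ U ⊆ M} ×ˢ ({F | F.Finite ∧ F ⊆ ⋃₀ M} ×ˢ {N | N.Finite ∧ N ⊆ ⋃₀ M}))) ∪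
    ⋃ A ∈ M, nb A
  let S : ℕ → Set (Set X) := fun n => Nat.rec {A₀} (fun _ M => nx M) n
  have hSs : ∀ n, S (n+1) = nx (S n) := fun n => rfl
  have hSmono : Monotone S := monotone_nat_of_le_succ (fun n => by
    rw [hSs]; exact subset_union_left.trans subset_union_left)
  have hSA : ∀ n, S n ⊆ 𝒜 := by
    intro n
    induction n with
    | zero => intro A hA; rw [show S 0 = {A₀} from rfl, mem_singleton_iff] at hA; rw [hA]; exact hA₀
    | succ n ih =>
      rw [hSs]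
      rintro A ((hA | ⟨p, _, rfl⟩) | hA)
      · exact ih hA
      · exact hΦ p
      · simp only [mem_iUnion] at hA
        obtain ⟨B, _, hB⟩ := hA
        exact hB.1
  have hSc : ∀ n, (S n).Countable := by
    intro n
    induction n with
    | zero => exact countable_singleton _
    | succ n ih =>
      rw [hSs]
      have h2 : (⋃₀ S n).Countable := ih.sUnion (fun A hA => hc A (hSA n hA))
      refine (ih.union (Countable.image ?_ _)).union (ih.biUnion (fun A hA => hb A (hSA n hA)))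
      exact (Set.countable_ofPred_finite_subset ih).prod
        ((Set.countable_ofPred_finite_subset h2).prod (Set.countable_ofPred_finite_subset h2))
  refine ⟨⋃ n, S n, iUnion_subset hSA, countable_iUnion hSc, mem_iUnion.2 ⟨0, rfl⟩, ?_, ?_⟩
  · intro A hA B hB hne hAB
    obtain ⟨n, hn⟩ := mem_iUnion.1 hA
    refine mem_iUnion.2 ⟨n+1, ?_⟩
    rw [hSs]
    right
    simp only [mem_iUnion]
    exact ⟨A, hn, hB, hne, hAB⟩
  intro U hU hUf F hF hFf N hN hNf hex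
  have hSU : Monotone (fun n => ⋃₀ S n) := fun m n hmn => sUnion_subset_sUnion (hSmono hmn)
  rw [Set.sUnion_iUnion] at hF hN
  obtain ⟨n1, hn1⟩ := finite_sub_mono hSmono hUf hU
  obtain ⟨n2, hn2⟩ := finite_sub_mono hSU hFf hF
  obtain ⟨n3, hn3⟩ := finite_sub_mono hSU hNf hN
  let n := max n1 (max n2 n3)
  have h1 : n1 ≤ n := le_max_left _ _
  have h2 : n2 ≤ n := (le_max_left _ _).trans (le_max_right _ _)
  have h3 : n3 ≤ n := (le_max_right _ _).trans (le_max_right _ _)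
  refine ⟨Φ (U, F, N), mem_iUnion.2 ⟨n+1, ?_⟩, ?_⟩
  · rw [hSs]
    refine Or.inl (Or.inr ⟨(U, F, N), ⟨⟨hUf, hn1.trans (hSmono h1)⟩, ⟨hFf, hn2.trans (hSU h2)⟩,
      ⟨hNf, hn3.trans (hSU h3)⟩⟩, rfl⟩)
  · simp only [Φ]
    rw [dif_pos hex]
    exact hex.choose_spec.2

/-- the conditions on a set of sets -/
structure Cond (𝒜 : Set (Set X)) : Prop where
  cnt : ∀ A ∈ 𝒜, A.Countable
  two : ∀ A ∈ 𝒜, A.Nontrivial
  fin : ∀ A ∈ 𝒜, A.Finite → ∀ B ∈ 𝒜, A ≠ B → ¬ One A B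
  bad : ∀ A ∈ 𝒜, {B | B ∈ 𝒜 ∧ B ≠ A ∧ Bad A B}.Countable
  ind : ∀ A ∈ 𝒜, A.Infinite → ∀ T ⊆ 𝒜, T.Finite → A ∉ T → (A \ ⋃₀ T).Infinite

/-- the extended ground set: private points are triples -/
abbrev Ext (X : Type*) : Type _ := X ⊕ (Set X × ℕ × ℕ)

/-- the copy of `D` -/
def inc (D : Set X) : Set (Ext X) := Sum.inl '' D

/-- the private points with label `(D, n)` -/
def priv (D : Set X) (n : ℕ) : Set (Ext X) := Set.range fun k : ℕ => (Sum.inr (D, n, k) : Ext X)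

lemma mem_inc {D : Set X} {x : X} : (Sum.inl x : Ext X) ∈ inc D ↔ x ∈ D := by
  constructor
  · rintro ⟨y, hy, h⟩
    rwa [Sum.inl.inj h] at hy
  · intro h; exact ⟨x, h, rfl⟩

lemma not_mem_inc {D : Set X} {p : Set X × ℕ × ℕ} : (Sum.inr p : Ext X) ∉ inc D := by
  rintro ⟨y, _, h⟩
  exact Sum.inl_ne_inr h

lemma not_mem_priv {D : Set X} {n : ℕ} {x : X} : (Sum.inl x : Ext X) ∉ priv D n := by
  rintro ⟨y, h⟩
  exact Sum.inr_ne_inl h

lemma mem_priv {D D' : Set X} {n m k : ℕ} :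
    (Sum.inr (D', m, k) : Ext X) ∈ priv D n ↔ D' = D ∧ m = n := by
  constructor
  · rintro ⟨j, h⟩
    have h1 := Sum.inr.inj h
    exact ⟨(congrArg Prod.fst h1).symm, (congrArg (fun q => q.2.1) h1).symm⟩
  · rintro ⟨rfl, rfl⟩
    exact ⟨k, rfl⟩

/-- the family of promised sets in the extended ground set -/
def MM (M : Set (Set X)) : Set (Set (Ext X)) :=
  {S | ∃ D ∈ M, D.Infinite ∧ S = inc D} ∪
    {S | ∃ D ∈ M, D.Finite ∧ ∃ n : ℕ, S = inc D ∪ priv D n}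

/-- the rest of the family in the extended ground set -/
def EE (𝒜 M : Set (Set X)) : Set (Set (Ext X)) :=
  {S | ∃ A ∈ 𝒜, (A ∉ M ∨ A.Finite) ∧ S = inc A}

/-- every member of `MM M` has a shadow in `M` -/
lemma MM_shadow {M : Set (Set X)} {S : Set (Ext X)} (hS : S ∈ MM M) :
    ∃ D ∈ M, (∀ x : X, (Sum.inl x : Ext X) ∈ S ↔ x ∈ D) ∧
      ((D.Infinite ∧ S = inc D) ∨ (D.Finite ∧ ∃ n, S = inc D ∪ priv D n)) := by
  rcases hS with ⟨D, hD, hinf, rfl⟩ | ⟨D, hD, hfin, n, rfl⟩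
  · exact ⟨D, hD, fun x => mem_inc, Or.inl ⟨hinf, rfl⟩⟩
  · refine ⟨D, hD, fun x => ?_, Or.inr ⟨hfin, n, rfl⟩⟩
    constructor
    · rintro (h | h)
      · exact mem_inc.1 h
      · exact absurd h not_mem_priv
    · intro h; exact Or.inl (mem_inc.2 h)

lemma inc_inter {A : Set X} {S : Set (Ext X)} {D : Set X}
    (h : ∀ x : X, (Sum.inl x : Ext X) ∈ S ↔ x ∈ D) : inc A ∩ S = inc (A ∩ D) := by
  ext z
  constructor
  · rintro ⟨⟨x, hx, rfl⟩, hz⟩
    exact mem_inc.2 ⟨hx, (h x).1 hz⟩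
  · rintro ⟨x, hx, rfl⟩
    exact ⟨mem_inc.2 hx.1, (h x).2 hx.2⟩

lemma inc_finite {A : Set X} (h : A.Finite) : (inc A).Finite := h.image _

lemma inc_infinite {A : Set X} (h : A.Infinite) : (inc A).Infinite :=
  h.image (Sum.inl_injective.injOn)

lemma one_inc {A D : Set X} {S : Set (Ext X)}
    (h : ∀ x : X, (Sum.inl x : Ext X) ∈ S ↔ x ∈ D) (hO : One (inc A) S) : One A D := by
  obtain ⟨z, ⟨⟨x, hx, rfl⟩, hz⟩, hu⟩ := hO
  refine ⟨x, ⟨hx, (h x).1 hz⟩, ?_⟩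
  intro y hy
  exact Sum.inl.inj (hu (Sum.inl y) ⟨mem_inc.2 hy.1, (h y).2 hy.2⟩)

lemma not_one_self {A : Set X} (h : A.Nontrivial) : ¬ One A A := by
  rintro ⟨x, _, hu⟩
  obtain ⟨a, ha, b, hb, hab⟩ := h
  exact hab ((hu a ⟨ha, ha⟩).trans (hu b ⟨hb, hb⟩).symm)

lemma priv_infinite (D : Set X) (n : ℕ) : (priv D n).Infinite := by
  apply Set.infinite_range_of_injective
  intro a b h
  have h1 := Sum.inr.inj h
  exact congrArg (fun q => q.2.2) h1

end Pool.Agent.Y355.PB
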