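import Pool.Agent.Y355.PB.Local

/-!
# Property B for families with countably many exceptional pairs for each member
-/

namespace Pool.Agent.Y355.PB

open Set Pool.Agent.Results.MP_8bce8b_co.ErdosKomjath

variable {X : Type*}

lemma Cond.mono {𝒜 ℬ : Set (Set X)} (h : Cond 𝒜) (hs : ℬ ⊆ 𝒜) : Cond ℬ where
  cnt A hA := h.cnt A (hs hA)
  two A hA := h.two A (hs hA)
  fin A hA hf B hB hne := h.fin A (hs hA) hf B (hs hB) hne
  bad A hA := (h.bad A (hs hA)).mono (by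
    rintro B ⟨hB1, hB2⟩
    exact ⟨hs hB1, hB2⟩)
  ind A hA hi T hT hTf hAT := h.ind A (hs hA) hi T (hT.trans hs) hTf hAT

lemma pre_eq {S : Set (Ext X)} {D : Set X} (h : ∀ x : X, (Sum.inl x : Ext X) ∈ S ↔ x ∈ D) :
    (Sum.inl : X → Ext X) ⁻¹' S = D := by
  ext x; exact h x

lemma inc_inter_pre (A : Set X) (G : Set (Ext X)) :
    inc A ∩ G = inc (A ∩ (Sum.inl : X → Ext X) ⁻¹' G) :=
  inc_inter (fun _ => Iff.rfl)

/-- some private copy of `D` avoids `F ∪ ⋃₀ U` -/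
lemma exists_free (D : Set X) {F : Set (Ext X)} (hF : F.Finite) {M : Set (Set X)}
    {U : Set (Set (Ext X))} (hUM : U ⊆ MM M) (hU : U.Finite) :
    ∃ n : ℕ, ∀ z ∈ priv D n, z ∉ F ∪ ⋃₀ U := by
  classical
  have h1 : {n : ℕ | ∃ k, (Sum.inr (D, n, k) : Ext X) ∈ F}.Finite := by
    refine (hF.image (fun z : Ext X => Sum.elim (fun _ => 0) (fun p => p.2.1) z)).subset ?_
    rintro n ⟨k, hk⟩
    exact ⟨_, hk, rfl⟩
  have h2 : {n : ℕ | inc D ∪ priv D n ∈ U}.Finite := by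
    refine hU.preimage ?_
    intro a _ b _ hab
    have ha : (Sum.inr (D, a, 0) : Ext X) ∈ inc D ∪ priv D b := by
      have : (Sum.inr (D, a, 0) : Ext X) ∈ inc D ∪ priv D a := Or.inr ⟨0, rfl⟩
      exact (show inc D ∪ priv D a = inc D ∪ priv D b from hab) ▸ this
    rcases ha with h | h
    · exact absurd h not_mem_inc
    · exact (mem_priv.1 h).2
  obtain ⟨n, hn⟩ := (h1.union h2).infinite_compl.nonempty
  refine ⟨n, ?_⟩
  rintro z ⟨k, rfl⟩ (hz | ⟨S, hS, hz⟩)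
  · exact hn (Or.inl ⟨k, hz⟩)
  · apply hn
    right
    obtain ⟨D₂, _, _, ⟨_, rfl⟩ | ⟨_, m, rfl⟩⟩ := MM_shadow (hUM hS)
    · exact absurd hz not_mem_inc
    · rcases hz with hz | hz
      · exact absurd hz not_mem_inc
      · obtain ⟨rfl, rfl⟩ := mem_priv.1 hz
        exact hS

lemma ctx {𝒜 M : Set (Set X)} (h : Cond 𝒜) (hMA : M ⊆ 𝒜)
    (hcl : ∀ A ∈ M, ∀ B ∈ 𝒜, B ≠ A → Bad A B → B ∈ M)
    (hM : ∀ U ⊆ M, U.Finite → ∀ F ⊆ ⋃₀ M, F.Finite →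
      ∀ N ⊆ ⋃₀ M, N.Finite → (∃ A ∈ 𝒜, A ∩ (F ∪ ⋃₀ U) = N) → ∃ D ∈ M, D ∩ (F ∪ ⋃₀ U) = N) :
    CtxI (EE 𝒜 M) (MM M) (⋃₀ MM M) := by
  classical
  have hshm : ∀ S ∈ MM M, (Sum.inl : X → Ext X) ⁻¹' S ∈ M := by
    intro S hS
    obtain ⟨D, hD, h1, _⟩ := MM_shadow hS
    rw [pre_eq h1]; exact hD
  have hfinAM : ∀ A ∈ 𝒜, A ∉ M → ∀ D ∈ M, (A ∩ D).Finite := by
    intro A hA hAM D hD
    by_contra hinf
    apply hAM
    refine hcl D hD A hA (fun he => hAM (he ▸ hD)) (Or.inr ?_)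
    rwa [Set.inter_comm]
  constructor
  · rintro _ ⟨A, hA, hAM, rfl⟩ S hS
    obtain ⟨D, hD, h1, _⟩ := MM_shadow hS
    rw [inc_inter h1]
    apply inc_finite
    rcases hAM with hAM | hAf
    · exact hfinAM A hA hAM D hD
    · exact hAf.inter_of_left _
  · rintro _ ⟨A, hA, hAM, rfl⟩ S hS hO
    obtain ⟨D, hD, h1, _⟩ := MM_shadow hS
    have hO' := one_inc h1 hO
    by_cases hAD : A = D
    · rw [← hAD] at hO'
      exact not_one_self (h.two A hA) hO'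
    · rcases hAM with hAM | hAf
      · exact hAM (hcl D hD A hA hAD (Or.inl (One.symm hO')))
      · exact h.fin A hA hAf D (hMA hD) hAD hO'
  · intro S hS T hT hTf hST
    obtain ⟨D, hD, h1, h2⟩ := MM_shadow hS
    rcases h2 with ⟨hDi, rfl⟩ | ⟨hDf, n, rfl⟩
    · have hTM : (fun S => (Sum.inl : X → Ext X) ⁻¹' S) '' T ⊆ 𝒜 := by
        rintro _ ⟨S, hS, rfl⟩
        exact hMA (hshm S (hT hS))
      have hDT : D ∉ (fun S => (Sum.inl : X → Ext X) ⁻¹' S) '' T := by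
        rintro ⟨S, hS, hSD⟩
        obtain ⟨D₂, _, h3, h4⟩ := MM_shadow (hT hS)
        have h5 : D₂ = D := by rw [← pre_eq h3]; exact hSD
        subst h5
        rcases h4 with ⟨_, rfl⟩ | ⟨hf, _⟩
        · exact hST hS
        · exact hDi hf
      have := h.ind D (hMA hD) hDi _ hTM (hTf.image _) hDT
      refine (inc_infinite this).mono ?_
      rintro _ ⟨x, ⟨hxD, hxT⟩, rfl⟩
      refine ⟨mem_inc.2 hxD, ?_⟩
      rintro ⟨S, hS, hxS⟩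
      exact hxT ⟨_, ⟨S, hS, rfl⟩, hxS⟩
    · refine (priv_infinite D n).mono ?_
      intro z hz
      refine ⟨Or.inr hz, ?_⟩
      rintro ⟨S, hS, hzS⟩
      obtain ⟨k, rfl⟩ := hz
      obtain ⟨D₂, _, _, ⟨_, rfl⟩ | ⟨_, m, rfl⟩⟩ := MM_shadow (hT hS)
      · exact absurd hzS not_mem_inc
      · rcases hzS with hz | hz
        · exact absurd hz not_mem_inc
        · obtain ⟨rfl, rfl⟩ := mem_priv.1 hz
          exact hST hS
  · intro S hS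
    exact subset_sUnion_of_mem hS
  · rintro U hU hUf F hF hFf _ ⟨A, hA, hAM, rfl⟩
    let U₀ : Set (Set X) := (fun S => (Sum.inl : X → Ext X) ⁻¹' S) '' U
    let F₀ : Set X := (Sum.inl : X → Ext X) ⁻¹' F
    have hU₀ : U₀ ⊆ M := by
      rintro _ ⟨S, hS, rfl⟩
      exact hshm S (hU hS)
    have hU₀f : U₀.Finite := hUf.image _
    have hF₀ : F₀ ⊆ ⋃₀ M := by
      intro x hx
      obtain ⟨S, hS, hxS⟩ := hF hx
      exact ⟨_, hshm S hS, hxS⟩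
    have hF₀f : F₀.Finite := hFf.preimage (Sum.inl_injective.injOn)
    have hG : (Sum.inl : X → Ext X) ⁻¹' (F ∪ ⋃₀ U) = F₀ ∪ ⋃₀ U₀ := by
      ext x
      constructor
      · rintro (hx | ⟨S, hS, hx⟩)
        · exact Or.inl hx
        · exact Or.inr ⟨_, ⟨S, hS, rfl⟩, hx⟩
      · rintro (hx | ⟨_, ⟨S, hS, rfl⟩, hx⟩)
        · exact Or.inl hx
        · exact Or.inr ⟨S, hS, hx⟩
    obtain ⟨D, hD, hDA⟩ : ∃ D ∈ M, D ∩ (F₀ ∪ ⋃₀ U₀) = A ∩ (F₀ ∪ ⋃₀ U₀) := by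
      by_cases hAM' : A ∈ M
      · exact ⟨A, hAM', rfl⟩
      · refine hM U₀ hU₀ hU₀f F₀ hF₀ hF₀f _ ?_ ?_ ⟨A, hA, rfl⟩
        · rintro x ⟨_, hx | hx⟩
          · exact hF₀ hx
          · exact sUnion_subset_sUnion hU₀ hx
        · rw [Set.inter_union_distrib_left]
          exact (hF₀f.inter_of_right _).union
            (fin_inter_sUnion hU₀f (fun D hD => hfinAM A hA hAM' D (hU₀ hD)))
    have hinc : inc D ∩ (F ∪ ⋃₀ U) = inc A ∩ (F ∪ ⋃₀ U) := by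
      rw [inc_inter_pre, inc_inter_pre, hG, hDA]
    by_cases hDi : D.Infinite
    · exact ⟨inc D, Or.inl ⟨D, hD, hDi, rfl⟩, hinc⟩
    · rw [Set.not_infinite] at hDi
      obtain ⟨n, hn⟩ := exists_free D hFf hU hUf
      refine ⟨inc D ∪ priv D n, Or.inr ⟨D, hD, hDi, n, rfl⟩, ?_⟩
      rw [← hinc]
      ext z
      constructor
      · rintro ⟨h1 | h1, h2⟩
        · exact ⟨h1, h2⟩
        · exact absurd h2 (hn z h1)
      · rintro ⟨h1, h2⟩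
        exact ⟨Or.inl h1, h2⟩

lemma localI {𝒜 : Set (Set X)} (h : Cond 𝒜) (hne : 𝒜.Nonempty) :
    ∃ (Y : Set X) (g : X → Bool), Y.Nonempty ∧ Y ⊆ ⋃₀ 𝒜 ∧
      ∀ A ∈ 𝒜, (∃ x ∈ A, x ∈ Y) → ∀ c, ∃ x ∈ A, x ∈ Y ∧ g x = c := by
  obtain ⟨A₀, hA₀⟩ := hne
  obtain ⟨M, hMA, hMc, hA₀M, hcl, hM⟩ := closingB h.cnt h.bad hA₀
  have hMMc : (MM M).Countable := by
    refine Countable.union ?_ ?_
    · refine (hMc.image inc).mono ?_
      rintro _ ⟨D, hD, _, rfl⟩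
      exact ⟨D, hD, rfl⟩
    · refine ((hMc.prod (countable_univ (α := ℕ))).image
        (fun p : Set X × ℕ => inc p.1 ∪ priv p.1 p.2)).mono ?_
      rintro _ ⟨D, hD, _, n, rfl⟩
      exact ⟨(D, n), ⟨hD, mem_univ _⟩, rfl⟩
  have hYc : (⋃₀ MM M).Countable := by
    refine hMMc.sUnion ?_
    intro S hS
    obtain ⟨D, hD, _, ⟨_, rfl⟩ | ⟨_, n, rfl⟩⟩ := MM_shadow hS
    · exact (h.cnt D (hMA hD)).image _
    · exact ((h.cnt D (hMA hD)).image _).union (countable_range _)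
  have hinM : ∀ A ∈ M, ∀ x ∈ A, (Sum.inl x : Ext X) ∈ ⋃₀ MM M := by
    intro A hA x hx
    by_cases hi : A.Infinite
    · exact ⟨inc A, Or.inl ⟨A, hA, hi, rfl⟩, mem_inc.2 hx⟩
    · rw [Set.not_infinite] at hi
      exact ⟨inc A ∪ priv A 0, Or.inr ⟨A, hA, hi, 0, rfl⟩, Or.inl (mem_inc.2 hx)⟩
  have hYM : ∀ x : X, (Sum.inl x : Ext X) ∈ ⋃₀ MM M → x ∈ ⋃₀ M := by
    rintro x ⟨S, hS, hx⟩
    obtain ⟨D, hD, h1, _⟩ := MM_shadow hS
    exact ⟨D, hD, (h1 x).1 hx⟩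
  have hne' : (MM M).Nonempty := by
    obtain ⟨x, hx⟩ := (h.two A₀ hA₀).nonempty
    obtain ⟨S, hS, _⟩ := hinM A₀ hA₀M x hx
    exact ⟨S, hS⟩
  obtain ⟨g, hg1, hg2⟩ := coreI (ctx h hMA hcl hM) hMMc hne' hYc
  refine ⟨⋃₀ M, fun x => g (Sum.inl x), ?_, sUnion_subset_sUnion hMA, ?_⟩
  · obtain ⟨x, hx⟩ := (h.two A₀ hA₀).nonempty
    exact ⟨x, A₀, hA₀M, hx⟩
  · rintro A hA ⟨x, hxA, D, hD, hxD⟩ c
    by_cases hcase : A ∉ M ∨ A.Finite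
    · obtain ⟨z, ⟨y, hy, rfl⟩, hzY, hz⟩ := hg1 (inc A) ⟨A, hA, hcase, rfl⟩
        ⟨Sum.inl x, mem_inc.2 hxA, hinM D hD x hxD⟩ c
      exact ⟨y, hy, hYM y hzY, hz⟩
    · push Not at hcase
      obtain ⟨z, ⟨y, hy, rfl⟩, hzY, hz⟩ := hg2 (inc A) (Or.inl ⟨A, hcase.1, hcase.2, rfl⟩) c
      exact ⟨y, hy, hYM y hzY, hz⟩

theorem propBI {𝒜 : Set (Set X)} (hcond : Cond 𝒜) :
    ∃ f : X → Bool, ∀ A ∈ 𝒜, ∀ c, ∃ x ∈ A, f x = c := by
  classical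
  let S : Set (Set (X × Bool)) := {G | (∀ x b b', (x, b) ∈ G → (x, b') ∈ G → b = b') ∧
    ∀ A ∈ 𝒜, (∃ x ∈ A, ∃ b, (x, b) ∈ G) → ∀ c, ∃ x ∈ A, (x, c) ∈ G}
  obtain ⟨G, hG⟩ := zorn_subset S (by
    intro C hC hchain
    refine ⟨⋃₀ C, ⟨?_, ?_⟩, fun s hs => subset_sUnion_of_mem hs⟩
    · rintro x b b' ⟨G1, hG1, h1⟩ ⟨G2, hG2, h2⟩
      rcases hchain.total hG1 hG2 with h | h
      · exact (hC hG2).1 x b b' (h h1) h2
      · exact (hC hG1).1 x b b' h1 (h h2)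
    · rintro A hA ⟨x, hxA, b, G1, hG1, h1⟩ c
      obtain ⟨z, hzA, hz⟩ := (hC hG1).2 A hA ⟨x, hxA, b, h1⟩ c
      exact ⟨z, hzA, G1, hG1, hz⟩)
  have hGS : G ∈ S := hG.prop
  have hall : ∀ A ∈ 𝒜, ∃ x ∈ A, ∃ b, (x, b) ∈ G := by
    by_contra hcon
    push Not at hcon
    obtain ⟨A₀, hA₀, hA₀G⟩ := hcon
    obtain ⟨Y, g, hYne, hYsub, hYg⟩ := localI (𝒜 := {A ∈ 𝒜 | ∀ x ∈ A, ∀ b, (x, b) ∉ G})
      (hcond.mono (fun A hA => hA.1)) ⟨A₀, hA₀, hA₀G⟩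
    have hYG : ∀ x ∈ Y, ∀ b, (x, b) ∉ G := by
      intro x hx b
      obtain ⟨A, hA, hxA⟩ := hYsub hx
      exact hA.2 x hxA b
    have hG' : G ∪ {p | p.1 ∈ Y ∧ p.2 = g p.1} ∈ S := by
      refine ⟨?_, ?_⟩
      · rintro x b b' (h1 | h1) (h2 | h2)
        · exact hGS.1 x b b' h1 h2
        · exact absurd h1 (hYG x h2.1 b)
        · exact absurd h2 (hYG x h1.1 b')
        · have e1 : b = g x := h1.2
          have e2 : b' = g x := h2.2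
          rw [e1, e2]
      · intro A hA hAG c
        by_cases h : ∃ x ∈ A, ∃ b, (x, b) ∈ G
        · obtain ⟨x, hx, hxc⟩ := hGS.2 A hA h c
          exact ⟨x, hx, Or.inl hxc⟩
        · push Not at h
          obtain ⟨x, hxA, b, hb⟩ := hAG
          have hxY : x ∈ Y := by
            rcases hb with hb | hb
            · exact absurd hb (h x hxA b)
            · exact hb.1
          obtain ⟨z, hzA, hzY, hz⟩ := hYg A ⟨hA, h⟩ ⟨x, hxA, hxY⟩ c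
          exact ⟨z, hzA, Or.inr ⟨hzY, hz.symm⟩⟩
    have hle := hG.le_of_ge hG' (subset_union_left)
    obtain ⟨x, hx⟩ := hYne
    exact hYG x hx (g x) (hle (Or.inr ⟨hx, rfl⟩))
  refine ⟨fun x => decide ((x, true) ∈ G), ?_⟩
  intro A hA c
  obtain ⟨x, hx, hxc⟩ := hGS.2 A hA (hall A hA) c
  refine ⟨x, hx, ?_⟩
  cases c with
  | true => simpa using hxc
  | false =>
    simp only [decide_eq_false_iff_not]
    intro h
    have := hGS.1 x _ _ hxc h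
    exact Bool.noConfusion this

end Pool.Agent.Y355.PB
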